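import Pool.Agent.Helper40.DZ.Stmts

/-!
Moebius disjointness of compact group extensions: statements of the modules for functions which
are Riemann integrable in the base variable (MP_7a8f48_an).
-/

open Finset Filter MeasureTheory Topology
open scoped ComplexConjugate InnerProductSpace

namespace Pool.Agent.Helper40.DZ

open Pool.Agent.Helper16.AZ (T E Op mm fc Eig PP)
open Pool.Agent.Helper16.BZ (EQ)
open Pool.Agent.Helper16.MD (MS)

/-- RIX: bounded functions which are continuous at almost all fibres are near continuous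
functions. -/
def ST_RIX : Prop := ∀ (r : ℕ) (K : Type) [TopologicalSpace K] [CompactSpace K]
  (F : T r × K → ℂ) (C : ℝ), (∀ z, ‖F z‖ ≤ C) → (∀ᵐ x ∂(mm r), ∀ k, ContinuousAt F (x, k)) →
  ∀ ε : ℝ, 0 < ε → ∃ (G : C(T r × K, ℂ)) (R : C(T r, ℝ)),
    (∀ x k, ‖F (x, k) - G (x, k)‖ ≤ R x) ∧ (∀ x, R x ≤ 2 * C) ∧ ∫ x, R x ∂(mm r) ≤ ε

/-- XRI: the theorem for bounded functions which are continuous at almost all fibres. -/
def ST_XRI : Prop := ∀ (r : ℕ) (d : ℕ → ℕ) (G : Subgroup (UU d))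
  (S : T r → T r) (Φ : T r → G), IsClosed (G : Set (UU d)) →
  Good3 S → EQ S (mm r) → (∀ᵐ x ∂(mm r), ContinuousAt Φ x) →
  ∀ (F : T r × G → ℂ) (C : ℝ), (∀ z, ‖F z‖ ≤ C) →
  (∀ᵐ x ∂(mm r), ∀ g, ContinuousAt F (x, g)) → ∀ (y : T r × G),
  Tendsto (fun N : ℕ => MS (fun n => F ((SKG3 G S Φ)^[n] y)) N / (N : ℂ)) atTop (𝓝 0)

end Pool.Agent.Helper40.DZ
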