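import Pool.Agent.Helper96.DZ.Stmts3

/-!
Moebius disjointness of compact group extensions with Riemann integrable cocycles:
module XRI (functions which are Riemann integrable in the base variable).
-/

open Finset Filter MeasureTheory Topology
open scoped ComplexConjugate InnerProductSpace

namespace Pool.Agent.Helper40.DZ

open Pool.Agent.Helper16.AZ (T E Op mm)
open Pool.Agent.Helper16.BZ (EQ)
open Pool.Agent.Helper16.MD (MS)

theorem xri_fst {r : ℕ} {d : ℕ → ℕ} (G : Subgroup (UU d)) (S : T r → T r)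
    (Φ : T r → G) (n : ℕ) (y : T r × G) : ((SKG3 G S Φ)^[n] y).1 = S^[n] y.1 := by
  induction n generalizing y with
  | zero => rfl
  | succ n ih => rw [Function.iterate_succ_apply, Function.iterate_succ_apply, ih]; rfl

theorem xri_MS (f g : ℕ → ℂ) (R : ℕ → ℝ) (h : ∀ n, ‖f n - g n‖ ≤ R n) (N : ℕ) :
    ‖MS f N - MS g N‖ ≤ ∑ n ∈ Icc 1 N, R n := by
  show ‖(∑ n ∈ Icc 1 N, ((ArithmeticFunction.moebius n : ℤ) : ℂ) * f n) -
    ∑ n ∈ Icc 1 N, ((ArithmeticFunction.moebius n : ℤ) : ℂ) * g n‖ ≤ _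
  rw [← Finset.sum_sub_distrib]
  refine (norm_sum_le _ _).trans (Finset.sum_le_sum fun n _ => ?_)
  rw [← mul_sub, norm_mul]
  have h1 : ‖((ArithmeticFunction.moebius n : ℤ) : ℂ)‖ ≤ 1 := by
    rw [Complex.norm_intCast]
    exact_mod_cast ArithmeticFunction.abs_moebius_le_one
  calc ‖((ArithmeticFunction.moebius n : ℤ) : ℂ)‖ * ‖f n - g n‖
      ≤ 1 * ‖f n - g n‖ := mul_le_mul_of_nonneg_right h1 (norm_nonneg _)
    _ ≤ R n := by rw [one_mul]; exact h n

theorem xri_avg {r : ℕ} {S : T r → T r} (hE : EQ S (mm r)) (R : C(T r, ℝ)) (x : T r) :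
    Tendsto (fun N : ℕ => (∑ n ∈ Icc 1 N, R (S^[n] x)) / (N : ℝ)) atTop
      (𝓝 (∫ y, R y ∂(mm r))) := by
  have h1 := hE 1 le_rfl (fun y => ((R y : ℝ) : ℂ)) (Complex.continuous_ofReal.comp R.continuous)
    (S x)
  have h2 := (Complex.continuous_re.tendsto _).comp h1
  have h3 : (∫ y, ((R y : ℝ) : ℂ) ∂(mm r)).re = ∫ y, R y ∂(mm r) := by
    rw [integral_complex_ofReal]
    exact Complex.ofReal_re _
  rw [h3] at h2
  refine h2.congr fun N => ?_
  have h4 : ∑ n ∈ Icc 1 N, R (S^[n] x) = ∑ n ∈ range N, R (S^[n + 1] x) := by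
    rw [Finset.range_eq_Ico, Finset.sum_Ico_add' (fun n => R (S^[n] x)) 0 N 1]
    rfl
  rw [h4]
  show ((∑ n ∈ range N, ((R (S^[1 * n] (S x)) : ℝ) : ℂ)) / (N : ℂ)).re = _
  have h5 : (∑ n ∈ range N, ((R (S^[1 * n] (S x)) : ℝ) : ℂ)) / (N : ℂ) =
      (((∑ n ∈ range N, R (S^[n + 1] x)) / (N : ℝ) : ℝ) : ℂ) := by
    push_cast
    congr 1
    refine Finset.sum_congr rfl fun n _ => ?_
    rw [one_mul, Function.iterate_succ_apply]
  rw [h5]
  exact Complex.ofReal_re _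

theorem st_XRI (hX : ST_XGR3) (hR : ST_RIX) : ST_XRI := by
  intro r d G S Φ hG hS hE hΦ F C hC hF y
  have hcomp : CompactSpace G := by
    have : CompactSpace (UU d) := by
      have h1 : ∀ k, CompactSpace (Matrix.unitaryGroup (Fin (d k)) ℂ) := fun k => inferInstance
      exact Pi.compactSpace
    exact isCompact_iff_compactSpace.mp (hG.isCompact)
  rw [Metric.tendsto_atTop]
  intro ε hε
  obtain ⟨F₀, R, h1, -, h3⟩ := hR r G F C hC hF (ε / 4) (by linarith)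
  have h4 := hX r d G S Φ hG hS hΦ F₀ y
  rw [Metric.tendsto_atTop] at h4
  obtain ⟨N₁, hN₁⟩ := h4 (ε / 4) (by linarith)
  have h5 := xri_avg hE R y.1
  rw [Metric.tendsto_atTop] at h5
  obtain ⟨N₂, hN₂⟩ := h5 (ε / 4) (by linarith)
  refine ⟨max (max N₁ N₂) 1, fun N hN => ?_⟩
  have hN1 : N₁ ≤ N := (le_max_left _ _).trans ((le_max_left _ _).trans hN)
  have hN2 : N₂ ≤ N := (le_max_right _ _).trans ((le_max_left _ _).trans hN)
  have hN3 : 1 ≤ N := (le_max_right _ _).trans hN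
  have hNp : (0 : ℝ) < N := by exact_mod_cast hN3
  have h6 := hN₁ N hN1
  have h7 := hN₂ N hN2
  rw [dist_zero_right] at h6 ⊢
  rw [Real.dist_eq] at h7
  have h8 := xri_MS (fun n => F ((SKG3 G S Φ)^[n] y)) (fun n => F₀ ((SKG3 G S Φ)^[n] y))
    (fun n => R (S^[n] y.1)) (fun n => by
      have h := h1 ((SKG3 G S Φ)^[n] y).1 ((SKG3 G S Φ)^[n] y).2
      exact h.trans_eq (by rw [xri_fst])) N
  have h9 : ‖(MS (fun n => F ((SKG3 G S Φ)^[n] y)) N - MS (fun n => F₀ ((SKG3 G S Φ)^[n] y)) N) /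
      (N : ℂ)‖ ≤ (∑ n ∈ Icc 1 N, R (S^[n] y.1)) / (N : ℝ) := by
    rw [norm_div, Complex.norm_natCast]
    exact div_le_div_of_nonneg_right h8 hNp.le
  have h10 : (∑ n ∈ Icc 1 N, R (S^[n] y.1)) / (N : ℝ) < ε / 2 := by
    have := (abs_lt.mp h7).2
    linarith
  have h11 : MS (fun n => F ((SKG3 G S Φ)^[n] y)) N / (N : ℂ) =
      (MS (fun n => F ((SKG3 G S Φ)^[n] y)) N - MS (fun n => F₀ ((SKG3 G S Φ)^[n] y)) N) /
      (N : ℂ) + MS (fun n => F₀ ((SKG3 G S Φ)^[n] y)) N / (N : ℂ) := by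
    rw [← add_div, sub_add_cancel]
  rw [h11]
  calc _ ≤ _ + _ := norm_add_le _ _
    _ < ε := by linarith

end Pool.Agent.Helper40.DZ
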