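import Pool.Agent.Helper40.DZ.Stmts

/-!
Transfer of the theorem for towers to the transformations `Base` (MP_7a8f48_an).
-/

open Finset Filter MeasureTheory Topology
open scoped ComplexConjugate InnerProductSpace

namespace Pool.Agent.Helper40.DZ

open Pool.Agent.Helper16.AZ (T E Op mm fc Eig PP)
open Pool.Agent.Helper16.BZ (co Wk EE ff EQ Act XX)
open Pool.Agent.Helper16.CZ (Tw Orth Fn)
open Pool.Agent.Helper16.MD (MS PB Am RW Rich)

theorem gbs_iter {r : ℕ} {S S' : T r → T r} {h : T r ≃ₜ T r} (hS : ∀ x, h (S x) = S' (h x))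
    (n : ℕ) (x : T r) : h (S^[n] x) = S'^[n] (h x) := by
  induction n with
  | zero => rfl
  | succ n ih => rw [Function.iterate_succ_apply', Function.iterate_succ_apply', hS, ih]

theorem gbs_co {r d : ℕ} {S S' : T r → T r} {h : T r ≃ₜ T r} (hS : ∀ x, h (S x) = S' (h x))
    (φ : T r → Op d) (n : ℕ) (x : T r) : co S φ n x = co S' (fun y => φ (h.symm y)) n (h x) := by
  induction n with
  | zero => rfl
  | succ n ih =>
    show φ (S^[n] x) * co S φ n x = φ (h.symm (S'^[n] (h x))) *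
      co S' (fun y => φ (h.symm y)) n (h x)
    rw [ih, ← gbs_iter hS, Homeomorph.symm_apply_apply]

theorem gbs_conj {r : ℕ} {S S' : T r → T r} (h : T r ≃ₜ T r)
    (hm : MeasurePreserving h (mm r) (mm r))
    (hS : ∀ x, h (S x) = S' (h x)) (hg : Good3 S') : Good3 S := by
  intro d φ v u x hφ hv
  have hm' : MeasurePreserving h.symm (mm r) (mm r) :=
    MeasurePreserving.symm h.toMeasurableEquiv hm
  have hφ' : UR (fun y => φ (h.symm y)) := by
    refine ⟨?_, fun y => hφ.2 _⟩
    filter_upwards [hm'.quasiMeasurePreserving.ae hφ.1] with y hy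
    exact ContinuousAt.comp (f := h.symm) hy h.symm.continuous.continuousAt
  have h1 := hg d (fun y => φ (h.symm y)) (fun y => v (h.symm y)) u (h x) hφ'
    (hv.comp h.symm.continuous)
  refine h1.congr fun N => ?_
  congr 1
  refine Finset.sum_congr rfl fun n _ => ?_
  congr 1
  show inner ℂ (v (h.symm (S'^[n] (h x)))) (co S' (fun y => φ (h.symm y)) n (h x) u) =
    inner ℂ (v (S^[n] x)) (co S φ n x u)
  rw [← gbs_co hS, ← gbs_iter hS, Homeomorph.symm_apply_apply]

theorem st_GBS (hTHB : ST_THB3) (hAFB : ST_AFB) (hCFN : Pool.Agent.Helper16.CZ.ST_CFN) :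
    ST_GBS := by
  intro r S hS
  rcases hS with ⟨A, β, hA⟩ | ⟨lev, D, f, hT⟩
  · obtain ⟨h, lev, D, ψ, S', hTw, hm, hc⟩ := hAFB r A β S hA
    exact gbs_conj h hm hc (hTHB r lev D ψ S' hTw)
  · obtain ⟨ψ, hψ⟩ := hCFN r lev D f S hT
    exact hTHB r lev D ψ S hψ

end Pool.Agent.Helper40.DZ
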